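import Pool.Agent.H76.NP.Targets

/-!
# MP_5d910f_co, row QF: the fan of the flag 3-sphere `Q`

The 33 facets, their supporting functionals and dual bases (times 12) are given as integer lists.
-/

set_option autoImplicit false
set_option maxRecDepth 100000

open Pool.Agent.H76.NP

namespace Pool.Agent.H52.NP.QF

/-- the facets; digit `k` in base 32 is vertex `k` -/
def FL : List ℕ :=
  [200768, 233536, 234560, 332864, 333888, 234592, 332896, 333920, 366688, 367712, 366720, 367744,
   234593, 267361, 268385, 366689, 367713, 268417, 366721, 302209, 367745, 303233, 302241, 303265,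
   268418, 302210, 303234, 302242, 303266, 336034, 336066, 336035, 336067]

/-- the facets as bit masks -/
def FM : List ℕ :=
  [85, 149, 165, 1061, 1093, 169, 1065, 1097, 2121, 2185, 2129, 2193, 170, 298, 330, 2122, 2186,
   338, 2130, 658, 2194, 786, 674, 802, 340, 660, 788, 676, 804, 1316, 1348, 1320, 1352]

/-- the supporting functionals: digit `a` in base 32 is `12` plus 12 times coefficient `a` -/
def LL : List ℕ :=
  [405516, 595986, 399576, 15666, 18636, 405912, 18834, 24972, 418188, 608658, 608460, 703695,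
   596562, 400134, 406272, 608838, 703983, 596544, 703974, 786828, 799116, 655876, 655888, 524936,
   399558, 655504, 524552, 524564, 393612, 12684, 15657, 15945, 19014]

/-- the dual bases, encoded in the same way; entry `4 i + k` belongs to vertex `k` of facet `i` -/
def DL : List ℕ :=
  [409872, 270604, 663820, 278920, 346382, 334094, 536840, 596370, 280912, 399564, 274960, 661840,
   408882, 399564, 402930, 21990, 409872, 399564, 407880, 19020, 278800, 410124, 270736, 663952,
   407826, 410124, 399762, 18822, 409872, 410124, 409992, 12684, 278800, 279052, 278920, 799116,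
   278800, 342542, 596370, 608646, 342224, 596172, 278920, 608844, 310479, 500937, 596370, 513609,
   596550, 346574, 334286, 536852, 662026, 281098, 399762, 274948, 664072, 279052, 409992, 270856,
   596550, 279052, 342470, 608466, 596550, 310767, 501045, 513321, 537224, 596172, 346568, 334280,
   501414, 596172, 310758, 513330, 537224, 536840, 536852, 393612, 533128, 532744, 532756, 418188,
   537224, 536840, 274948, 524564, 537224, 274960, 536852, 524552, 537224, 274960, 274948, 655504,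
   274576, 661834, 280906, 399942, 274576, 536840, 536852, 524936, 274576, 536840, 274948, 655888,
   274576, 274960, 536852, 655876, 274576, 274960, 274948, 786828, 401552, 401936, 401924, 24972,
   402543, 408873, 399942, 21999, 409161, 399762, 403011, 21711, 408138, 409992, 399942, 18642]

/-- digit `a` in base 32 -/
def dig (m a : ℕ) : ℕ := (m >>> (5 * a)) % 32

/-- vertex `k` of facet `i` -/
def fv (i : Fin 33) (k : Fin 4) : Fin 24 := Fin.ofNat 24 (dig (FL.getD i.val 0) k.val)

/-- membership in facet `i` -/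
def inF (i : Fin 33) (v : Fin 24) : Bool := (FM.getD i.val 0).testBit v.val

/-- coefficients of the supporting functional -/
def lc (i : Fin 33) (a : Fin 4) : ℤ := (dig (LL.getD i.val 0) a.val : ℤ) - 12

/-- coefficients of the dual basis -/
def dc (i : Fin 33) (k a : Fin 4) : ℤ := (dig (DL.getD (4 * i.val + k.val) 0) a.val : ℤ) - 12

/-- value of the functional at the vertex `v` -/
def dot (l : Fin 4 → ℤ) (v : Fin 24) : ℤ :=
  l 0 * co v 0 + l 1 * co v 1 + l 2 * co v 2 + l 3 * co v 3

theorem h_mem : ∀ (i : Fin 33) (v : Fin 24), (∃ k, fv i k = v) ↔ inF i v = true := by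
  decide +kernel

theorem h_inj : ∀ (i : Fin 33) (k l : Fin 4), fv i k = fv i l → k = l := by
  decide +kernel

theorem h_face : ∀ (i : Fin 33) (k l : Fin 4), ofMasks M0 (fv i k) (fv i l) = true := by
  decide +kernel

theorem h_max : ∀ (i : Fin 33) (v : Fin 24), (∀ k, ofMasks M0 v (fv i k) = true) →
    inF i v = true := by
  decide +kernel

/-- some facet contains `a b c d` -/
def ok4 (a b c d : ℕ) : Bool :=
  FM.any fun m => m.testBit a && (m.testBit b && (m.testBit c && m.testBit d))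

/-- adjacency -/
def ad (a b : ℕ) : Bool := (M0.getD a 0).testBit b

/-- all cliques with at most four vertices lie in facets -/
def chk : Bool :=
  (List.range 24).all fun a => (List.range 24).all fun b => !ad a b ||
    (List.range 24).all fun c => !ad a c || (!ad b c ||
      (List.range 24).all fun d => !ad a d || (!ad b d || (!ad c d || ok4 a b c d)))

theorem chk_true : chk = true := by
  decide +kernel

theorem h_four (a b : Fin 24) (hab : ofMasks M0 a b = true) (c : Fin 24)
    (hac : ofMasks M0 a c = true) (hbc : ofMasks M0 b c = true) (d : Fin 24)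
    (had : ofMasks M0 a d = true) (hbd : ofMasks M0 b d = true) (hcd : ofMasks M0 c d = true) :
    ∃ i : Fin 33, inF i a = true ∧ inF i b = true ∧ inF i c = true ∧ inF i d = true := by
  have h := chk_true
  unfold chk at h
  rw [List.all_eq_true] at h
  have h1 := h a.val (List.mem_range.2 a.isLt)
  rw [List.all_eq_true] at h1
  have h2 := h1 b.val (List.mem_range.2 b.isLt)
  have eab : ad a.val b.val = true := hab
  have eac : ad a.val c.val = true := hac
  have ebc : ad b.val c.val = true := hbc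
  have ead : ad a.val d.val = true := had
  have ebd : ad b.val d.val = true := hbd
  have ecd : ad c.val d.val = true := hcd
  rw [eab, Bool.not_true, Bool.false_or, List.all_eq_true] at h2
  have h3 := h2 c.val (List.mem_range.2 c.isLt)
  rw [eac, ebc, Bool.not_true, Bool.false_or, Bool.false_or, List.all_eq_true] at h3
  have h4 := h3 d.val (List.mem_range.2 d.isLt)
  rw [ead, ebd, ecd, Bool.not_true, Bool.false_or, Bool.false_or, Bool.false_or] at h4
  unfold ok4 at h4
  rw [List.any_eq_true] at h4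
  obtain ⟨m, hm, hm2⟩ := h4
  obtain ⟨i, hi, rfl⟩ := List.mem_iff_getElem.1 hm
  have hi' : i < 33 := hi
  rw [Bool.and_eq_true, Bool.and_eq_true, Bool.and_eq_true] at hm2
  have e : ∀ v : Fin 24, inF ⟨i, hi'⟩ v = (FM[i]).testBit v.val := by
    intro v
    exact congrArg (fun m : ℕ => m.testBit v.val) (List.getD_eq_getElem _ _ hi)
  exact ⟨⟨i, hi'⟩, by rw [e]; exact hm2.1, by rw [e]; exact hm2.2.1, by rw [e]; exact hm2.2.2.1,
    by rw [e]; exact hm2.2.2.2⟩

theorem h_lam1 : ∀ (i : Fin 33) (k : Fin 4), dot (lc i) (fv i k) = 12 := by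
  decide +kernel

theorem h_lam2 : ∀ (i : Fin 33) (v : Fin 24), ofMasks M0 v v = true → inF i v = false →
    dot (lc i) v < 12 := by
  decide +kernel

theorem h_dual : ∀ (i : Fin 33) (k l : Fin 4),
    dot (dc i k) (fv i l) = if k = l then 12 else 0 := by
  decide +kernel

theorem h_id : ∀ (i : Fin 33) (a b : Fin 4), dc i 0 a * co (fv i 0) b.val +
    dc i 1 a * co (fv i 1) b.val + dc i 2 a * co (fv i 2) b.val + dc i 3 a * co (fv i 3) b.val =
      if a = b then 12 else 0 := by
  decide +kernel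

theorem h_nb : ∀ (i : Fin 33) (k : Fin 4), ∃ j : Fin 33,
    (∀ l : Fin 4, l ≠ k → inF j (fv i l) = true) ∧ inF j (fv i k) = false := by
  decide +kernel

theorem h_cx : IsCx (ofMasks M0) :=
  ⟨by decide +kernel, by decide +kernel⟩

theorem h_fin4 : ∀ a b c d : Fin 4, a ≠ b → a ≠ c → a ≠ d → b ≠ c → b ≠ d → c ≠ d →
    ∀ k : Fin 4, k = a ∨ k = b ∨ k = c ∨ k = d := by
  decide +kernel

/-- facet `i` -/
def F (i : Fin 33) : Finset (Fin 24) := Finset.univ.image (fv i)

theorem mem_F {i : Fin 33} {v : Fin 24} : v ∈ F i ↔ ∃ k, fv i k = v := by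
  unfold F
  simp

theorem mem_F' {i : Fin 33} {v : Fin 24} : v ∈ F i ↔ inF i v = true := by
  rw [mem_F, h_mem]

theorem fv_mem (i : Fin 33) (k : Fin 4) : fv i k ∈ F i := mem_F.2 ⟨k, rfl⟩

theorem fv_inj (i : Fin 33) : Function.Injective (fv i) := fun k l h => h_inj i k l h

/-- the functional with coefficients `l a / 12` -/
noncomputable def fn (l : Fin 4 → ℤ) : (Fin 4 → ℝ) →ₗ[ℝ] ℝ :=
  (1 / 12 : ℝ) • ∑ a, (l a : ℝ) • LinearMap.proj a

theorem fn_apply (l : Fin 4 → ℤ) (x : Fin 4 → ℝ) :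
    fn l x = 1 / 12 * ((l 0 : ℝ) * x 0 + (l 1 : ℝ) * x 1 + (l 2 : ℝ) * x 2 + (l 3 : ℝ) * x 3) := by
  unfold fn
  rw [LinearMap.smul_apply, LinearMap.sum_apply, Fin.sum_univ_four]
  simp only [LinearMap.smul_apply, LinearMap.proj_apply, smul_eq_mul]

theorem fn_p4 (l : Fin 4 → ℤ) (v : Fin 24) : fn l (p4 v) = ((dot l v : ℤ) : ℝ) / 12 := by
  rw [fn_apply]
  unfold p4 dot
  push_cast
  simp only [Fin.val_zero, Fin.val_one, Fin.val_two]
  have h3 : ((3 : Fin 4) : ℕ) = 3 := rfl
  rw [h3]
  ring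

/-- the dual basis of facet `i` -/
noncomputable def dual (i : Fin 33) (v : Fin 24) : (Fin 4 → ℝ) →ₗ[ℝ] ℝ :=
  ∑ k, if fv i k = v then fn (dc i k) else 0

theorem dual_fv (i : Fin 33) (k : Fin 4) : dual i (fv i k) = fn (dc i k) := by
  unfold dual
  rw [Finset.sum_eq_single k (fun l _ hl => if_neg fun h => hl (fv_inj i h))
    (fun h => absurd (Finset.mem_univ k) h), if_pos rfl]

theorem four (σ : Finset (Fin 24)) (hne : σ.Nonempty) : ∃ a ∈ σ, ∃ b ∈ σ, ∃ c ∈ σ, ∃ d ∈ σ,
    (∀ x ∈ σ, x = a ∨ x = b ∨ x = c ∨ x = d) ∨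
      (a ≠ b ∧ a ≠ c ∧ a ≠ d ∧ b ≠ c ∧ b ≠ d ∧ c ≠ d) := by
  obtain ⟨a, ha⟩ := hne
  by_cases h1 : ∀ x ∈ σ, x = a
  · exact ⟨a, ha, a, ha, a, ha, a, ha, Or.inl fun x hx => Or.inl (h1 x hx)⟩
  push Not at h1
  obtain ⟨b, hb, hba⟩ := h1
  by_cases h2 : ∀ x ∈ σ, x = a ∨ x = b
  · refine ⟨a, ha, b, hb, b, hb, b, hb, Or.inl fun x hx => ?_⟩
    rcases h2 x hx with h | h
    · exact Or.inl h
    · exact Or.inr (Or.inl h)
  push Not at h2
  obtain ⟨c, hc, hca, hcb⟩ := h2
  by_cases h3 : ∀ x ∈ σ, x = a ∨ x = b ∨ x = c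
  · refine ⟨a, ha, b, hb, c, hc, c, hc, Or.inl fun x hx => ?_⟩
    rcases h3 x hx with h | h | h
    · exact Or.inl h
    · exact Or.inr (Or.inl h)
    · exact Or.inr (Or.inr (Or.inl h))
  push Not at h3
  obtain ⟨d, hd, hda, hdb, hdc⟩ := h3
  exact ⟨a, ha, b, hb, c, hc, d, hd, Or.inr ⟨hba.symm, hca.symm, hda.symm, hcb.symm, hdb.symm,
    hdc.symm⟩⟩

theorem cover (σ : Finset (Fin 24)) (hσ : Face (ofMasks M0) σ) : ∃ i, σ ⊆ F i := by
  rcases σ.eq_empty_or_nonempty with h0 | hne
  · exact ⟨0, by rw [h0]; exact Finset.empty_subset _⟩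
  obtain ⟨a, ha, b, hb, c, hc, d, hd, h⟩ := four σ hne
  obtain ⟨i, hia, hib, hic, hid⟩ := h_four a b (hσ a ha b hb) c (hσ a ha c hc) (hσ b hb c hc) d
    (hσ a ha d hd) (hσ b hb d hd) (hσ c hc d hd)
  refine ⟨i, fun x hx => ?_⟩
  rw [mem_F']
  rcases h with h | ⟨h1, h2, h3, h4, h5, h6⟩
  · rcases h x hx with rfl | rfl | rfl | rfl
    · exact hia
    · exact hib
    · exact hic
    · exact hid
  · obtain ⟨ka, rfl⟩ := (h_mem i a).2 hia
    obtain ⟨kb, rfl⟩ := (h_mem i b).2 hib
    obtain ⟨kc, rfl⟩ := (h_mem i c).2 hic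
    obtain ⟨kd, rfl⟩ := (h_mem i d).2 hid
    refine h_max i x fun k => ?_
    rcases h_fin4 ka kb kc kd (fun e => h1 (by rw [e])) (fun e => h2 (by rw [e]))
      (fun e => h3 (by rw [e])) (fun e => h4 (by rw [e])) (fun e => h5 (by rw [e]))
      (fun e => h6 (by rw [e])) k with rfl | rfl | rfl | rfl
    · exact hσ x hx _ ha
    · exact hσ x hx _ hb
    · exact hσ x hx _ hc
    · exact hσ x hx _ hd

theorem dual_p4 (i : Fin 33) (u v : Fin 24) (hu : u ∈ F i) (hv : v ∈ F i) :
    dual i u (p4 v) = if u = v then 1 else 0 := by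
  obtain ⟨k, rfl⟩ := mem_F.1 hu
  obtain ⟨l, rfl⟩ := mem_F.1 hv
  rw [dual_fv, fn_p4, h_dual]
  by_cases hkl : k = l
  · subst hkl
    norm_num
  · have h1 : fv i k ≠ fv i l := fun e => hkl (fv_inj i e)
    rw [if_neg hkl, if_neg h1]
    norm_num

theorem expand (i : Fin 33) (x : Fin 4 → ℝ) : x = ∑ v ∈ F i, dual i v x • p4 v := by
  unfold F
  rw [Finset.sum_image fun k _ l _ h => fv_inj i h]
  funext b
  have h1 : ∀ a : Fin 4, ((dc i 0 a : ℤ) : ℝ) * ((co (fv i 0) b.val : ℤ) : ℝ) +
      ((dc i 1 a : ℤ) : ℝ) * ((co (fv i 1) b.val : ℤ) : ℝ) +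
      ((dc i 2 a : ℤ) : ℝ) * ((co (fv i 2) b.val : ℤ) : ℝ) +
      ((dc i 3 a : ℤ) : ℝ) * ((co (fv i 3) b.val : ℤ) : ℝ) = if a = b then 12 else 0 := by
    intro a
    have := h_id i a b
    have h2 : (((dc i 0 a * co (fv i 0) b.val + dc i 1 a * co (fv i 1) b.val +
      dc i 2 a * co (fv i 2) b.val + dc i 3 a * co (fv i 3) b.val : ℤ)) : ℝ) =
        ((if a = b then 12 else 0 : ℤ) : ℝ) := by rw [this]
    push_cast at h2
    exact h2
  rw [Fin.sum_univ_four]
  simp only [dual_fv, fn_apply, Pi.add_apply, Pi.smul_apply, smul_eq_mul, p4]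
  have e0 := h1 0
  have e1 := h1 1
  have e2 := h1 2
  have e3 := h1 3
  have h4 : ∑ a : Fin 4, x a * (if a = b then (12 : ℝ) else 0) = x b * 12 := by
    rw [Finset.sum_eq_single b (fun a _ hab => by rw [if_neg hab, mul_zero])
      (fun h => absurd (Finset.mem_univ b) h), if_pos rfl]
  rw [Fin.sum_univ_four, ← e0, ← e1, ← e2, ← e3] at h4
  linear_combination (-1 / 12) * h4

/-- row QF -/
theorem pf_QF (hC : T_CVX) : T_QF := by
  refine ⟨hC (Fin 24) (Fin 4 → ℝ) (Fin 33) inferInstance inferInstance inferInstance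
    inferInstance inferInstance ⟨0⟩ (ofMasks M0) p4 F (fun i => fn (lc i)) dual cover ?_ ?_ ?_
    (fun i u hu v hv => dual_p4 i u v hu hv) expand ?_, h_cx⟩
  · intro i u hu v hv
    obtain ⟨k, rfl⟩ := mem_F.1 hu
    obtain ⟨l, rfl⟩ := mem_F.1 hv
    exact h_face i k l
  · intro i v hv
    obtain ⟨k, rfl⟩ := mem_F.1 hv
    show fn (lc i) (p4 (fv i k)) = 1
    rw [fn_p4, h_lam1]
    norm_num
  · intro i v hv hvF
    show fn (lc i) (p4 v) < 1
    have h1 : inF i v = false := by
      rw [mem_F'] at hvF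
      exact Bool.eq_false_of_not_eq_true hvF
    have h2 := h_lam2 i v hv h1
    have h3 : ((dot (lc i) v : ℤ) : ℝ) < 12 := by exact_mod_cast h2
    rw [fn_p4]
    linarith
  · intro i v hv
    obtain ⟨k, rfl⟩ := mem_F.1 hv
    obtain ⟨j, hj1, hj2⟩ := h_nb i k
    refine ⟨j, fun u hu => ?_, fun h => ?_⟩
    · rw [Finset.mem_erase, mem_F] at hu
      obtain ⟨hne, l, rfl⟩ := hu
      rw [mem_F']
      exact hj1 l fun e => hne (by rw [e])
    · rw [mem_F', hj2] at h
      exact Bool.false_ne_true h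

end Pool.Agent.H52.NP.QF
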