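import Pool.Agent.H76.NP.Targets

/-!
# MP_5d910f_co, row SPH: the space of a complete fan is a sphere

The point `x` of the space is sent to the unit vector in the direction of `∑ v, x v • q v`.
-/

set_option autoImplicit false

open Pool.Agent.H76.NP

namespace Pool.Agent.H52.NP

section fan

variable {n : ℕ} {W : Type} [NormedAddCommGroup W] [NormedSpace ℝ W]
  {A : Fin n → Fin n → Bool} {q : Fin n → W}

/-- the linear map of the fan -/
def Y (q : Fin n → W) (x : EuclideanSpace ℝ (Fin n)) : W := ∑ v, x v • q v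

theorem continuous_Y (q : Fin n → W) : Continuous (Y q) := by
  unfold Y
  fun_prop

/-- only the zero coefficient vector represents zero -/
theorem rep_zero (hF : Fan A q) {c : Fin n → ℝ} (hc : Rep A q 0 c) : c = 0 := by
  obtain ⟨c0, _, hu⟩ := hF 0
  have h1 := hu c hc
  have h2 := hu 0 ⟨fun v => le_refl _, fun u v hu' _ => absurd rfl hu', by simp⟩
  rw [h1, h2]

/-- the conditions which describe the space -/
def Sp (A : Fin n → Fin n → Bool) (x : EuclideanSpace ℝ (Fin n)) : Prop :=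
  (∀ v, 0 ≤ x v) ∧ ∑ v, x v = 1 ∧ ∀ u v, x u ≠ 0 → x v ≠ 0 → A u v = true

theorem rep_of_sp {x : EuclideanSpace ℝ (Fin n)} (hx : Sp A x) {t : ℝ} (ht : 0 ≤ t) :
    Rep A q (t • Y q x) (fun v => t * x v) := by
  refine ⟨fun v => mul_nonneg ht (hx.1 v), fun u v hu hv => ?_, ?_⟩
  · exact hx.2.2 u v (right_ne_zero_of_mul hu) (right_ne_zero_of_mul hv)
  · unfold Y
    rw [Finset.smul_sum]
    exact Finset.sum_congr rfl fun v _ => mul_smul _ _ _

theorem Y_ne (hF : Fan A q) {x : EuclideanSpace ℝ (Fin n)} (hx : Sp A x) : Y q x ≠ 0 := by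
  intro h0
  have h1 := rep_of_sp (q := q) hx (zero_le_one)
  rw [h0, smul_zero] at h1
  have h2 := rep_zero hF h1
  have h3 : ∑ v, x v = 0 := by
    refine Finset.sum_eq_zero fun v _ => ?_
    have := congrFun h2 v
    simpa using this
  rw [hx.2.1] at h3
  exact one_ne_zero h3

theorem sp_inj (hF : Fan A q) {x x' : EuclideanSpace ℝ (Fin n)} (hx : Sp A x) (hx' : Sp A x')
    (h : ‖Y q x‖⁻¹ • Y q x = ‖Y q x'‖⁻¹ • Y q x') : x = x' := by
  have h1 := rep_of_sp (q := q) hx (inv_nonneg.2 (norm_nonneg (Y q x)))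
  have h2 := rep_of_sp (q := q) hx' (inv_nonneg.2 (norm_nonneg (Y q x')))
  rw [← h] at h2
  obtain ⟨c0, _, hu⟩ := hF (‖Y q x‖⁻¹ • Y q x)
  have h3 : (fun v => ‖Y q x‖⁻¹ * x v) = fun v => ‖Y q x'‖⁻¹ * x' v := by
    rw [hu _ h1, hu _ h2]
  have h4 : ‖Y q x‖⁻¹ = ‖Y q x'‖⁻¹ := by
    have h5 : ∑ v, ‖Y q x‖⁻¹ * x v = ∑ v, ‖Y q x'‖⁻¹ * x' v :=
      Finset.sum_congr rfl fun v _ => congrFun h3 v
    rw [← Finset.mul_sum, ← Finset.mul_sum, hx.2.1, hx'.2.1, mul_one, mul_one] at h5
    exact h5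
  have h6 : ‖Y q x‖⁻¹ ≠ 0 := inv_ne_zero (norm_ne_zero_iff.2 (Y_ne hF hx))
  ext v
  have h7 := congrFun h3 v
  simp only at h7
  rw [← h4] at h7
  exact mul_left_cancel₀ h6 h7

theorem sp_surj (hF : Fan A q) {z : W} (hz : ‖z‖ = 1) :
    ∃ x : EuclideanSpace ℝ (Fin n), Sp A x ∧ ‖Y q x‖⁻¹ • Y q x = z := by
  obtain ⟨c, hc, _⟩ := hF z
  have hs : 0 < ∑ v, c v := by
    refine lt_of_le_of_ne (Finset.sum_nonneg fun v _ => hc.1 v) fun h0 => ?_
    have h1 := (Finset.sum_eq_zero_iff_of_nonneg fun v _ => hc.1 v).1 h0.symm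
    have h2 : z = 0 := by
      rw [← hc.2.2]
      refine Finset.sum_eq_zero fun v hv => ?_
      rw [h1 v hv, zero_smul]
    rw [h2, norm_zero] at hz
    exact zero_ne_one hz
  refine ⟨WithLp.toLp 2 fun v => (∑ v, c v)⁻¹ * c v, ⟨fun v => ?_, ?_, fun u v hu hv => ?_⟩, ?_⟩
  · exact mul_nonneg (inv_nonneg.2 hs.le) (hc.1 v)
  · show ∑ v, (∑ v, c v)⁻¹ * c v = 1
    rw [← Finset.mul_sum, inv_mul_cancel₀ hs.ne']
  · exact hc.2.1 u v (right_ne_zero_of_mul hu) (right_ne_zero_of_mul hv)
  · have h1 : Y q (WithLp.toLp 2 fun v => (∑ v, c v)⁻¹ * c v) = (∑ v, c v)⁻¹ • z := by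
      unfold Y
      rw [← hc.2.2, Finset.smul_sum]
      exact Finset.sum_congr rfl fun v _ => mul_smul _ _ _
    rw [h1, norm_smul, hz, mul_one, norm_inv, Real.norm_of_nonneg hs.le, inv_inv, smul_smul,
      mul_inv_cancel₀ hs.ne', one_smul]

theorem compact_sp (A : Fin n → Fin n → Bool) : IsCompact {x | Sp A x} := by
  refine Metric.isCompact_of_isClosed_isBounded ?_ ?_
  · have h1 : {x : EuclideanSpace ℝ (Fin n) | Sp A x} = (⋂ v, {x | 0 ≤ x v}) ∩
        ({x | ∑ v, x v = 1} ∩ ⋂ u, ⋂ v, {x | A u v = false → x u * x v = 0}) := by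
      ext x
      simp only [Set.mem_inter_iff, Set.mem_iInter, Set.mem_setOf_eq]
      refine and_congr Iff.rfl (and_congr Iff.rfl ⟨fun h u v huv => ?_, fun h u v hu hv => ?_⟩)
      · by_contra h0
        have := h u v (left_ne_zero_of_mul h0) (right_ne_zero_of_mul h0)
        rw [huv] at this
        exact Bool.false_ne_true this
      · by_contra h0
        have := h u v (Bool.eq_false_of_not_eq_true h0)
        exact (mul_ne_zero hu hv) this
    rw [h1]
    refine IsClosed.inter (isClosed_iInter fun v => ?_) (IsClosed.inter ?_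
      (isClosed_iInter fun u => isClosed_iInter fun v => ?_))
    · exact isClosed_le continuous_const (by fun_prop)
    · exact isClosed_eq (by fun_prop) continuous_const
    · by_cases huv : A u v = false
      · have h2 : {x : EuclideanSpace ℝ (Fin n) | A u v = false → x u * x v = 0} =
            {x | x u * x v = 0} := by
          ext x
          simp [huv]
        rw [h2]
        exact isClosed_eq (by fun_prop) continuous_const
      · have h2 : {x : EuclideanSpace ℝ (Fin n) | A u v = false → x u * x v = 0} =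
            Set.univ := by
          ext x
          simp [huv]
        rw [h2]
        exact isClosed_univ
  · refine (Metric.isBounded_closedBall (x := (0 : EuclideanSpace ℝ (Fin n))) (r := 1)).subset
      fun x hx => ?_
    rw [Metric.mem_closedBall, dist_zero_right, EuclideanSpace.norm_eq]
    refine Real.sqrt_le_one.2 ?_
    rw [← hx.2.1]
    refine Finset.sum_le_sum fun v _ => ?_
    have h1 : x v ≤ 1 := by
      rw [← hx.2.1]
      exact Finset.single_le_sum (f := fun v => x v) (fun v _ => hx.1 v) (Finset.mem_univ v)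
    rw [Real.norm_of_nonneg (hx.1 v)]
    nlinarith [hx.1 v]

end fan

/-- row SPH -/
theorem pf_SPH : T_SPH := by
  intro n d E _ _ _ A p hd hF S hS
  have hSeq : S = {x | Sp A x} := Set.ext fun x => hS x
  subst hSeq
  have e : E ≃L[ℝ] EuclideanSpace ℝ (Fin d) := ContinuousLinearEquiv.ofFinrankEq (by simp [hd])
  set q : Fin n → EuclideanSpace ℝ (Fin d) := fun v => e (p v) with hq
  have hFq : Fan A q := by
    intro z
    obtain ⟨c, hc, hu⟩ := hF (e.symm z)
    have key : ∀ c', Rep A q z c' ↔ Rep A p (e.symm z) c' := by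
      intro c'
      have h1 : ∑ v, c' v • q v = e (∑ v, c' v • p v) := by
        rw [map_sum]
        exact Finset.sum_congr rfl fun v _ => (map_smul e _ _).symm
      constructor
      · rintro ⟨ha, hb, hc⟩
        exact ⟨ha, hb, by rw [← hc, h1, e.symm_apply_apply]⟩
      · rintro ⟨ha, hb, hc⟩
        exact ⟨ha, hb, by rw [h1, hc, e.apply_symm_apply]⟩
    exact ⟨c, (key c).2 hc, fun c' hc' => hu c' ((key c').1 hc')⟩
  let f : {x | Sp A x} → Metric.sphere (0 : EuclideanSpace ℝ (Fin d)) 1 := fun x =>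
    ⟨‖Y q x.1‖⁻¹ • Y q x.1, by
      rw [mem_sphere_zero_iff_norm, norm_smul, norm_inv, norm_norm,
        inv_mul_cancel₀ (norm_ne_zero_iff.2 (Y_ne hFq x.2))]⟩
  have hf : Continuous f := by
    refine Continuous.subtype_mk ?_ _
    have h1 : Continuous fun x : {x | Sp A x} => Y q x.1 :=
      (continuous_Y q).comp continuous_subtype_val
    exact (h1.norm.inv₀ fun x => norm_ne_zero_iff.2 (Y_ne hFq x.2)).smul h1
  have hb : Function.Bijective f := by
    constructor
    · intro x x' hxx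
      exact Subtype.ext (sp_inj hFq x.2 x'.2 (congrArg Subtype.val hxx))
    · rintro ⟨z, hz⟩
      obtain ⟨x, hx, hxz⟩ := sp_surj hFq (mem_sphere_zero_iff_norm.1 hz)
      exact ⟨⟨x, hx⟩, Subtype.ext hxz⟩
  haveI : CompactSpace {x | Sp A x} := isCompact_iff_compactSpace.1 (compact_sp A)
  exact ⟨Continuous.homeoOfEquivCompactToT2 (f := Equiv.ofBijective f hb) hf⟩

end Pool.Agent.H52.NP
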